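import Pool.Agent.E8helper66.GB.Stm

set_option autoImplicit false

/-! Project GB (helper66), pieces GB-5 (PIG). -/

namespace Pool.Agent.E8helper64.GB

open Finset Pool.Agent.E8helper66.GB

lemma nn_le (x : ℝ) (k : ℤ) : nn x ≤ |x - k| := by
  unfold nn
  rw [UnitAddCircle.norm_eq]
  exact round_le x k

lemma nn_eq (x : ℝ) : nn x = |x - round x| := by
  unfold nn
  rw [UnitAddCircle.norm_eq]

lemma pigeon {α β : Type*} [DecidableEq β] (S : Finset α) (t : Finset β) (f : α → β)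
    (hf : ∀ a ∈ S, f a ∈ t) (K : ℝ) (hK : 0 < K) (ht : (t.card : ℝ) ≤ K) (hS : S.Nonempty) :
    ∃ b ∈ t, (S.card : ℝ) / K ≤ ((S.filter (fun a => f a = b)).card : ℝ) := by
  by_contra hcon
  push Not at hcon
  obtain ⟨a, ha⟩ := hS
  have htn : t.Nonempty := ⟨f a, hf a ha⟩
  have h1 : (S.card : ℝ) = ∑ b ∈ t, ((S.filter (fun a => f a = b)).card : ℝ) := by
    rw [← Nat.cast_sum, ← Finset.card_eq_sum_card_fiberwise (fun a ha => hf a ha)]
  have h2 : ∑ b ∈ t, ((S.filter (fun a => f a = b)).card : ℝ) < ∑ _b ∈ t, (S.card : ℝ) / K :=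
    Finset.sum_lt_sum_of_nonempty htn hcon
  rw [Finset.sum_const, nsmul_eq_mul] at h2
  have h3 : (t.card : ℝ) * ((S.card : ℝ) / K) ≤ K * ((S.card : ℝ) / K) :=
    mul_le_mul_of_nonneg_right ht (by positivity)
  rw [mul_div_cancel₀ _ hK.ne'] at h3
  linarith

theorem t_PIG : S_PIG := by
  refine ⟨9, ?_⟩
  intro T T' N θ P hT hT' hN hP hPp
  have hN0 : (0 : ℝ) < N := by exact_mod_cast hN
  have hN1 : (1 : ℝ) ≤ N := by exact_mod_cast hN
  have hPn : P.Nonempty := by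
    rw [← Finset.card_pos]
    have : (0 : ℝ) < P.card := lt_of_lt_of_le (by positivity) hP
    exact_mod_cast this
  -- step 1: one first coordinate
  obtain ⟨h₀, hh₀, hc₀⟩ := pigeon P (Icc (-(N : ℤ)) N) Prod.fst
    (fun p hp => by
      have := (hPp p hp).1
      rw [abs_le] at this
      exact mem_Icc.2 this) (3 * N) (by positivity)
    (by
      rw [Int.card_Icc]
      have : (((N : ℤ) + 1 - -(N : ℤ)).toNat : ℝ) = 2 * N + 1 := by
        have h : ((N : ℤ) + 1 - -(N : ℤ)).toNat = 2 * N + 1 := by omega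
        rw [h]; push_cast; ring
      rw [this]; linarith) hPn
  set P₀ := P.filter (fun p => p.1 = h₀) with hP₀
  have hP₀c : (N : ℝ) / (3 * T) ≤ P₀.card := by
    refine le_trans ?_ hc₀
    rw [div_le_div_iff₀ (by positivity) (by positivity)]
    have h1 : (N : ℝ) ^ 2 ≤ P.card * T := by
      rwa [div_le_iff₀ (by linarith)] at hP
    nlinarith
  have hP₀n : P₀.Nonempty := by
    rw [← Finset.card_pos]
    have : (0 : ℝ) < P₀.card := lt_of_lt_of_le (by positivity) hP₀c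
    exact_mod_cast this
  -- step 2: choose the denominators
  have hch : ∀ p : ℤ × ℤ, ∃ q : ℕ, p ∈ P₀ → 1 ≤ q ∧ (q : ℝ) ≤ T ∧ nn (q * (θ h₀ - θ p.2)) ≤ T / N := by
    intro p
    by_cases hp : p ∈ P₀
    · obtain ⟨hp1, hp2⟩ := Finset.mem_filter.1 hp
      obtain ⟨_, _, q, hq⟩ := hPp p hp1
      refine ⟨q, fun _ => ?_⟩
      rw [hp2] at hq
      exact hq
    · exact ⟨0, fun h => absurd h hp⟩
  choose q hq using hch
  set a : ℤ × ℤ → ℤ := fun p => round ((q p : ℝ) * (θ h₀ - θ p.2)) with ha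
  set ρ : ℤ × ℤ → ℝ := fun p => ((a p : ℝ) - q p * (θ h₀ - θ p.2)) / q p with hρ
  set F : ℤ × ℤ → ℕ × (ℤ × ℤ) := fun p => (q p, (a p % (q p : ℤ), ⌊2 * T' * N * ρ p⌋)) with hF
  set t : Finset (ℕ × (ℤ × ℤ)) := Icc 1 ⌊T⌋₊ ×ˢ (Ico (0 : ℤ) ⌊T⌋₊ ×ˢ Icc (-(⌊2 * T' * T⌋ + 1)) ⌊2 * T' * T⌋) with ht
  have hρb : ∀ p ∈ P₀, |ρ p| ≤ T / N := by
    intro p hp
    obtain ⟨h1, _, h3⟩ := hq p hp
    have hq1 : (1 : ℝ) ≤ q p := by exact_mod_cast h1
    rw [nn_eq] at h3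
    rw [hρ]
    simp only
    rw [abs_div, abs_of_pos (by linarith : (0 : ℝ) < q p), ha]
    simp only
    rw [abs_sub_comm]
    calc |(q p : ℝ) * (θ h₀ - θ p.2) - round ((q p : ℝ) * (θ h₀ - θ p.2))| / q p
        ≤ |(q p : ℝ) * (θ h₀ - θ p.2) - round ((q p : ℝ) * (θ h₀ - θ p.2))| / 1 := by
          apply div_le_div_of_nonneg_left (abs_nonneg _) one_pos hq1
      _ ≤ T / N := by rw [div_one]; exact h3
  have hmem : ∀ p ∈ P₀, F p ∈ t := by
    intro p hp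
    obtain ⟨h1, h2, h3⟩ := hq p hp
    have hqT : q p ≤ ⌊T⌋₊ := Nat.le_floor h2
    rw [hF, ht]
    simp only [mem_product, mem_Icc, mem_Ico]
    have hb := hρb p hp
    rw [abs_le] at hb
    have hb1 : 2 * T' * N * ρ p ≤ 2 * T' * T := by
      calc 2 * T' * N * ρ p ≤ 2 * T' * N * (T / N) := by
            apply mul_le_mul_of_nonneg_left hb.2 (by positivity)
        _ = 2 * T' * T := by field_simp
    have hb2 : -(2 * T' * T) ≤ 2 * T' * N * ρ p := by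
      calc -(2 * T' * T) = 2 * T' * N * (-(T / N)) := by field_simp
        _ ≤ 2 * T' * N * ρ p := by
            apply mul_le_mul_of_nonneg_left hb.1 (by positivity)
    refine ⟨⟨h1, hqT⟩, ⟨Int.emod_nonneg _ (by positivity), ?_⟩, ?_, Int.floor_le_floor hb1⟩
    · have h4 : a p % (q p : ℤ) < q p := Int.emod_lt_of_pos _ (by exact_mod_cast h1)
      have h5 : (q p : ℤ) ≤ ⌊T⌋₊ := by exact_mod_cast hqT
      omega
    · rw [Int.le_floor]
      push_cast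
      have := Int.lt_floor_add_one (2 * T' * T)
      linarith
  have htc : (t.card : ℝ) ≤ 8 * T ^ 3 * T' := by
    rw [ht, card_product, card_product, Nat.card_Icc, Int.card_Ico, Int.card_Icc]
    have hf0 : (⌊T⌋₊ : ℝ) ≤ T := Nat.floor_le (by linarith)
    have e1 : ((⌊T⌋₊ + 1 - 1 : ℕ) : ℝ) ≤ T := by
      rw [Nat.add_sub_cancel]; exact hf0
    have e2 : ((((⌊T⌋₊ : ℤ) - 0).toNat : ℕ) : ℝ) ≤ T := by
      have : ((⌊T⌋₊ : ℤ) - 0).toNat = ⌊T⌋₊ := by omega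
      rw [this]; exact hf0
    have e3 : (((⌊2 * T' * T⌋ + 1 - -(⌊2 * T' * T⌋ + 1)).toNat : ℕ) : ℝ) ≤ 8 * T * T' := by
      have h0 : 0 ≤ ⌊2 * T' * T⌋ := Int.floor_nonneg.2 (by positivity)
      have h1 : (((⌊2 * T' * T⌋ + 1 - -(⌊2 * T' * T⌋ + 1)).toNat : ℕ) : ℝ)
          = 2 * ⌊2 * T' * T⌋ + 2 := by
        have : (((⌊2 * T' * T⌋ + 1 - -(⌊2 * T' * T⌋ + 1)).toNat : ℕ) : ℤ)
          = 2 * ⌊2 * T' * T⌋ + 2 := by
          rw [Int.toNat_of_nonneg (by omega)]; ring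
        have h2 : ((((⌊2 * T' * T⌋ + 1 - -(⌊2 * T' * T⌋ + 1)).toNat : ℕ) : ℤ) : ℝ)
          = ((2 * ⌊2 * T' * T⌋ + 2 : ℤ) : ℝ) := by rw [this]
        push_cast at h2 ⊢
        linarith
      rw [h1]
      have h2 := Int.floor_le (2 * T' * T)
      have h3 : 4 ≤ T * T' := by nlinarith
      nlinarith
    push_cast
    have h0 : (0 : ℝ) ≤ (((⌊2 * T' * T⌋ + 1 - -(⌊2 * T' * T⌋ + 1)).toNat : ℕ) : ℝ) := Nat.cast_nonneg _
    calc ((⌊T⌋₊ + 1 - 1 : ℕ) : ℝ) * (((((⌊T⌋₊ : ℤ) - 0).toNat : ℕ) : ℝ) * (((⌊2 * T' * T⌋ + 1 - -(⌊2 * T' * T⌋ + 1)).toNat : ℕ) : ℝ))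
        ≤ T * (T * (8 * T * T')) := by
          apply mul_le_mul e1 (mul_le_mul e2 e3 h0 (by linarith)) (by positivity) (by linarith)
      _ = 8 * T ^ 3 * T' := by ring
  obtain ⟨b, hb, hbc⟩ := pigeon P₀ t F hmem (8 * T ^ 3 * T') (by positivity) htc hP₀n
  set P₁ := P₀.filter (fun p => F p = b) with hP₁
  have hP₁c : (N : ℝ) / (T ^ 9 * T') ≤ P₁.card := by
    refine le_trans ?_ hbc
    have h1 : (N : ℝ) / (3 * T) / (8 * T ^ 3 * T') ≤ P₀.card / (8 * T ^ 3 * T') :=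
      div_le_div_of_nonneg_right hP₀c (by positivity)
    refine le_trans ?_ h1
    rw [div_div, div_le_div_iff₀ (by positivity) (by positivity)]
    have h2 : (24 : ℝ) ≤ T ^ 5 := by
      have : (2 : ℝ) ^ 5 ≤ T ^ 5 := pow_le_pow_left₀ (by norm_num) hT 5
      linarith
    have h24 : (N : ℝ) * (3 * T * (8 * T ^ 3 * T')) = 24 * ((N : ℝ) * (T ^ 4 * T')) := by ring
    have h25 : (N : ℝ) * (T ^ 9 * T') = T ^ 5 * ((N : ℝ) * (T ^ 4 * T')) := by ring
    rw [h24, h25]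
    exact mul_le_mul_of_nonneg_right h2 (by positivity)
  have hP₁n : P₁.Nonempty := by
    rw [← Finset.card_pos]
    have : (0 : ℝ) < P₁.card := lt_of_lt_of_le (by positivity) hP₁c
    exact_mod_cast this
  obtain ⟨p₁, hp₁⟩ := hP₁n
  refine ⟨θ p₁.2, P₁.image Prod.snd, ?_, ?_⟩
  · rw [Finset.card_image_of_injOn]
    · exact hP₁c
    · intro x hx y hy hxy
      have h1 := (Finset.mem_filter.1 (Finset.mem_filter.1 hx).1).2
      have h2 := (Finset.mem_filter.1 (Finset.mem_filter.1 hy).1).2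
      exact Prod.ext (h1.trans h2.symm) hxy
  · intro h hh
    obtain ⟨p, hp, rfl⟩ := Finset.mem_image.1 hh
    obtain ⟨hp0, hpF⟩ := Finset.mem_filter.1 hp
    obtain ⟨hp10, hp1F⟩ := Finset.mem_filter.1 hp₁
    refine ⟨⟨p, (Finset.mem_filter.1 hp0).1, rfl⟩, ?_⟩
    have hFF : F p = F p₁ := hpF.trans hp1F.symm
    rw [hF] at hFF
    simp only [Prod.mk.injEq] at hFF
    obtain ⟨e1, e2, e3⟩ := hFF
    have hq1 : 1 ≤ q p := (hq p hp0).1
    have hq1' : (1 : ℝ) ≤ q p := by exact_mod_cast hq1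
    rw [← e1] at e2
    have hdvd : (q p : ℤ) ∣ a p - a p₁ := Int.ModEq.dvd (Int.ModEq.symm e2)
    obtain ⟨k, hk⟩ := hdvd
    have h1 : θ p.2 = θ h₀ - a p / q p + ρ p := by
      rw [hρ]; simp only; field_simp; ring
    have h2 : θ p₁.2 = θ h₀ - a p₁ / q p + ρ p₁ := by
      rw [hρ]; simp only; rw [← e1]; field_simp; ring
    have h3 : θ p.2 - θ p₁.2 - ((-k : ℤ) : ℝ) = ρ p - ρ p₁ := by
      have hk' : (a p : ℝ) - a p₁ = q p * k := by exact_mod_cast hk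
      rw [h1, h2]
      push_cast
      have : (a p : ℝ) = a p₁ + q p * k := by linarith
      rw [this]
      field_simp
      ring
    refine (nn_le _ (-k)).trans ?_
    rw [h3]
    have h4 : |2 * T' * N * ρ p - 2 * T' * N * ρ p₁| < 1 := Int.abs_sub_lt_one_of_floor_eq_floor e3
    rw [← mul_sub, abs_mul, abs_of_pos (by positivity : (0 : ℝ) < 2 * T' * N)] at h4
    rw [le_div_iff₀ (by positivity)]
    have h5 : 0 ≤ |ρ p - ρ p₁| := abs_nonneg _
    have h6 : 0 ≤ |ρ p - ρ p₁| * (T' * N) := by positivity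
    nlinarith

end Pool.Agent.E8helper64.GB
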