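import Pool.Agent.E8helper66.GB.Stm

set_option autoImplicit false

/-! Project GB (helper66), piece GB-2 (REL). -/

namespace Pool.Agent.E8helper64.GB

open Finset Pool.Agent.E8helper66.GB

lemma nn_le' (x : ℝ) (k : ℤ) : nn x ≤ |x - k| := by
  unfold nn
  rw [UnitAddCircle.norm_eq]
  exact round_le x k

lemma nn_eq' (x : ℝ) : nn x = |x - round x| := by
  unfold nn
  rw [UnitAddCircle.norm_eq]

lemma nn_add (x y : ℝ) : nn (x + y) ≤ nn x + nn y := by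
  refine (nn_le' (x + y) (round x + round y)).trans ?_
  rw [nn_eq' x, nn_eq' y]
  push_cast
  have : x + y - ((round x : ℝ) + round y) = (x - round x) + (y - round y) := by ring
  rw [this]
  exact abs_add_le _ _

lemma nn_neg (x : ℝ) : nn (-x) = nn x := by
  unfold nn
  rw [AddCircle.coe_neg, norm_neg]

lemma nn_sub (x y : ℝ) : nn (x - y) ≤ nn x + nn y := by
  rw [sub_eq_add_neg, ← nn_neg y]
  exact nn_add _ _

lemma nn_zmul (k : ℤ) (x : ℝ) : nn (k * x) ≤ |(k : ℝ)| * nn x := by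
  refine (nn_le' (k * x) (k * round x)).trans ?_
  rw [nn_eq' x]
  push_cast
  rw [← mul_sub, abs_mul]

lemma nn_nmul (k : ℕ) (x : ℝ) : nn (k * x) ≤ k * nn x := by
  have := nn_zmul (k : ℤ) x
  push_cast at this
  rwa [abs_of_nonneg (Nat.cast_nonneg k)] at this

lemma nn_nonneg (x : ℝ) : 0 ≤ nn x := by
  unfold nn
  exact norm_nonneg _

theorem t_REL (hREC : S_REC) : S_REL := by
  refine ⟨15, ?_⟩
  intro T ε M S s₁ s₂ φ₁ φ₂ φ₁₂ α A hT hA hAc hM hε hs₁ hs₂ hS hSM hSε hh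
  have hT1 : (1 : ℝ) ≤ T := by linarith
  have hT0 : (0 : ℝ) < T := by linarith
  have hM0 : (0 : ℝ) < M := lt_of_lt_of_le (by positivity) hM
  have hS1 : (1 : ℝ) ≤ S := by exact_mod_cast hS
  have hSM' : (S : ℝ) ≤ M := by exact_mod_cast hSM
  have hs₁' : |(s₁ : ℝ)| ≤ S := by exact_mod_cast hs₁
  have hs₂' : |(s₂ : ℝ)| ≤ S := by exact_mod_cast hs₂
  have hSε0 : 0 ≤ S * ε := by positivity
  have hεS : ε ≤ S * ε := by nlinarith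
  have hA' : A ⊆ Ico ((M : ℤ) + 1) ((M : ℤ) + 1 + M) := by
    intro m hm
    have := mem_Ioc.1 (hA hm)
    rw [mem_Ico]
    omega
  have hη1 : (1 : ℝ) / T ≤ 1 := by
    rw [div_le_one hT0]; exact hT1
  have hηM : 1 / T * M ≤ A.card := by
    have : 1 / T * M = (M : ℝ) / T := by ring
    rw [this]; exact hAc
  have h64 : 64 / (1 / T) ^ 2 ≤ (M : ℝ) := by
    refine le_trans ?_ hM
    have e : 64 / (1 / T) ^ 2 = 64 * T ^ 2 := by field_simp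
    rw [e]
    have h13 : (64 : ℝ) ≤ T ^ 13 := by
      have : (2 : ℝ) ^ 13 ≤ T ^ 13 := pow_le_pow_left₀ (by norm_num) hT 13
      linarith
    calc 64 * T ^ 2 ≤ T ^ 13 * T ^ 2 := mul_le_mul_of_nonneg_right h13 (by positivity)
      _ = T ^ 15 := by ring
  have hsmall : 4 * (S * ε) ≤ 1 / T / 64 := by
    rw [div_div, le_div_iff₀ (by positivity)]
    have h14 : (256 : ℝ) ≤ T ^ 14 := by
      have : (2 : ℝ) ^ 14 ≤ T ^ 14 := pow_le_pow_left₀ (by norm_num) hT 14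
      linarith
    calc 4 * (S * ε) * (T * 64) = 256 * (T * (S * ε)) := by ring
      _ ≤ T ^ 14 * (T * (S * ε)) := mul_le_mul_of_nonneg_right h14 (by positivity)
      _ = T ^ 15 * (S * ε) := by ring
      _ ≤ 1 := hSε
  -- first application
  have key1 : ∀ m ∈ A, nn ((m : ℝ) * (s₂ * φ₁ - s₁ * φ₂) + -(s₁ * s₂ * (φ₁ - φ₂))) ≤ 4 * (S * ε) := by
    intro m hm
    obtain ⟨t, h0, h1, h2, _⟩ := hh m hm
    have ha : nn (s₁ * t + (m - s₁) * φ₁) ≤ 2 * ε := by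
      have e : s₁ * t + (m - s₁) * φ₁ = (m * t - α) - ((m - s₁) * (t - φ₁) - α) := by ring
      rw [e]
      exact (nn_sub _ _).trans (by linarith)
    have hb : nn (s₂ * t + (m - s₂) * φ₂) ≤ 2 * ε := by
      have e : s₂ * t + (m - s₂) * φ₂ = (m * t - α) - ((m - s₂) * (t - φ₂) - α) := by ring
      rw [e]
      exact (nn_sub _ _).trans (by linarith)
    have e : (m : ℝ) * (s₂ * φ₁ - s₁ * φ₂) + -(s₁ * s₂ * (φ₁ - φ₂)) =
        s₂ * (s₁ * t + (m - s₁) * φ₁) - s₁ * (s₂ * t + (m - s₂) * φ₂) := by ring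
    rw [e]
    refine (nn_sub _ _).trans ?_
    have h3 := nn_zmul s₂ (s₁ * t + (m - s₁) * φ₁)
    have h4 := nn_zmul s₁ (s₂ * t + (m - s₂) * φ₂)
    have h5 : |(s₂ : ℝ)| * nn (s₁ * t + (m - s₁) * φ₁) ≤ S * (2 * ε) :=
      mul_le_mul hs₂' ha (nn_nonneg _) (by linarith)
    have h6 : |(s₁ : ℝ)| * nn (s₂ * t + (m - s₂) * φ₂) ≤ S * (2 * ε) :=
      mul_le_mul hs₁' hb (nn_nonneg _) (by linarith)
    linarith
  obtain ⟨q₁, hq₁1, hq₁2, hq₁3⟩ := hREC (s₂ * φ₁ - s₁ * φ₂) (-(s₁ * s₂ * (φ₁ - φ₂))) (4 * (S * ε)) (1 / T) M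
    ((M : ℤ) + 1) A hA' (by positivity) hη1 hηM (by positivity) hsmall h64 key1
  -- second application
  have key2 : ∀ m ∈ A, nn ((m : ℝ) * (φ₁ + φ₂ - φ₁₂) + (-(s₁ * φ₁) - s₂ * φ₂ + (s₁ + s₂) * φ₁₂)) ≤ 4 * ε := by
    intro m hm
    obtain ⟨t, h0, h1, h2, h12⟩ := hh m hm
    have e : (m : ℝ) * (φ₁ + φ₂ - φ₁₂) + (-(s₁ * φ₁) - s₂ * φ₂ + (s₁ + s₂) * φ₁₂) =
        ((m * t - α) - ((m - s₁) * (t - φ₁) - α)) - (((m - s₂) * (t - φ₂) - α) - ((m - s₁ - s₂) * (t - φ₁₂) - α)) := by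
      ring
    rw [e]
    have h3 := nn_sub (m * t - α) ((m - s₁) * (t - φ₁) - α)
    have h4 := nn_sub ((m - s₂) * (t - φ₂) - α) ((m - s₁ - s₂) * (t - φ₁₂) - α)
    exact (nn_sub _ _).trans (by linarith)
  obtain ⟨q₂, hq₂1, hq₂2, hq₂3⟩ := hREC (φ₁ + φ₂ - φ₁₂) (-(s₁ * φ₁) - s₂ * φ₂ + (s₁ + s₂) * φ₁₂) (4 * ε) (1 / T) M
    ((M : ℤ) + 1) A hA' (by positivity) hη1 hηM (by positivity) (by linarith) h64 key2
  have e2T : 2 / (1 / T) = 2 * T := by field_simp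
  rw [e2T] at hq₁2 hq₂2
  have hq₁3' : nn (q₁ * (s₂ * φ₁ - s₁ * φ₂)) ≤ 256 * T ^ 2 * ε := by
    refine hq₁3.trans ?_
    have e : 64 * (4 * (S * ε)) / ((1 / T) ^ 2 * M) = 256 * T ^ 2 * ε * (S / M) := by
      field_simp
      ring
    rw [e]
    have h1 : (S : ℝ) / M ≤ 1 := by
      rw [div_le_one hM0]; exact hSM'
    calc 256 * T ^ 2 * ε * (S / M) ≤ 256 * T ^ 2 * ε * 1 := mul_le_mul_of_nonneg_left h1 (by positivity)
      _ = 256 * T ^ 2 * ε := mul_one _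
  have hq₂3' : nn (q₂ * (φ₁ + φ₂ - φ₁₂)) ≤ 256 * T ^ 2 * ε / M := by
    refine hq₂3.trans (le_of_eq ?_)
    field_simp
    ring
  -- an element of A
  have hAn : A.Nonempty := by
    rw [← Finset.card_pos]
    have : (0 : ℝ) < A.card := lt_of_lt_of_le (by positivity) hAc
    exact_mod_cast this
  obtain ⟨m, hm⟩ := hAn
  have hm2 : |(m : ℝ)| ≤ 2 * M := by
    have := mem_Ioc.1 (hA hm)
    rw [abs_le]
    constructor
    · have : (0 : ℤ) ≤ m := by omega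
      have : (0 : ℝ) ≤ m := by exact_mod_cast this
      linarith
    · exact_mod_cast this.2
  have hq₂0 : (0 : ℝ) ≤ q₂ := Nat.cast_nonneg _
  have hq₁0 : (0 : ℝ) ≤ q₁ := Nat.cast_nonneg _
  have h1 : nn (q₂ * (s₂ * φ₁ + s₁ * φ₂)) ≤ 1028 * T ^ 2 * ε := by
    have e : q₂ * (s₂ * φ₁ + s₁ * φ₂) =
        (q₂ : ℝ) * ((m : ℝ) * (φ₁ + φ₂ - φ₁₂) + (-(s₁ * φ₁) - s₂ * φ₂ + (s₁ + s₂) * φ₁₂)) -
        (((m - s₁ - s₂ : ℤ) : ℝ) * (q₂ * (φ₁ + φ₂ - φ₁₂))) := by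
      push_cast
      ring
    rw [e]
    refine (nn_sub _ _).trans ?_
    have h2 := nn_nmul q₂ ((m : ℝ) * (φ₁ + φ₂ - φ₁₂) + (-(s₁ * φ₁) - s₂ * φ₂ + (s₁ + s₂) * φ₁₂))
    have h3 := key2 m hm
    have h4 : (q₂ : ℝ) * nn ((m : ℝ) * (φ₁ + φ₂ - φ₁₂) + (-(s₁ * φ₁) - s₂ * φ₂ + (s₁ + s₂) * φ₁₂)) ≤ 2 * T * (4 * ε) :=
      mul_le_mul hq₂2 h3 (nn_nonneg _) (by positivity)
    have h5 := nn_zmul (m - s₁ - s₂) (q₂ * (φ₁ + φ₂ - φ₁₂))
    have h6 : |((m - s₁ - s₂ : ℤ) : ℝ)| ≤ 4 * M := by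
      push_cast
      have h7 : |(m : ℝ) - s₁ - s₂| ≤ |(m : ℝ)| + |(s₁ : ℝ)| + |(s₂ : ℝ)| := by
        have a1 := abs_sub (m - s₁ : ℝ) s₂
        have a2 := abs_sub (m : ℝ) s₁
        linarith
      linarith
    have h8 : |((m - s₁ - s₂ : ℤ) : ℝ)| * nn (q₂ * (φ₁ + φ₂ - φ₁₂)) ≤ 4 * M * (256 * T ^ 2 * ε / M) :=
      mul_le_mul h6 hq₂3' (nn_nonneg _) (by positivity)
    have h9 : 4 * (M : ℝ) * (256 * T ^ 2 * ε / M) = 1024 * T ^ 2 * ε := by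
      field_simp
      ring
    have h10 : T * ε * 2 ≤ T ^ 2 * ε := by
      have : T * ε * 2 = 2 * (T * ε) := by ring
      rw [this]
      have : T ^ 2 * ε = T * (T * ε) := by ring
      rw [this]
      exact mul_le_mul_of_nonneg_right hT (by positivity)
    rw [h9] at h8
    linarith
  refine ⟨2 * q₁ * q₂, ?_, ?_, ?_⟩
  · have := Nat.mul_pos (Nat.mul_pos two_pos hq₁1) hq₂1
    omega
  · push_cast
    have h2 : (q₁ : ℝ) * q₂ ≤ 2 * T * (2 * T) := mul_le_mul hq₁2 hq₂2 hq₂0 (by positivity)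
    have h13 : (8 : ℝ) ≤ T ^ 13 := by
      have : (2 : ℝ) ^ 13 ≤ T ^ 13 := pow_le_pow_left₀ (by norm_num) hT 13
      linarith
    calc 2 * (q₁ : ℝ) * q₂ ≤ 8 * T ^ 2 := by linarith
      _ ≤ T ^ 13 * T ^ 2 := mul_le_mul_of_nonneg_right h13 (by positivity)
      _ = T ^ 15 := by ring
  · push_cast
    have e : 2 * (q₁ : ℝ) * q₂ * (s₂ * φ₁) = q₂ * (q₁ * (s₂ * φ₁ - s₁ * φ₂)) + q₁ * (q₂ * (s₂ * φ₁ + s₁ * φ₂)) := by
      ring
    rw [e]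
    refine (nn_add _ _).trans ?_
    have h2 := nn_nmul q₂ (q₁ * (s₂ * φ₁ - s₁ * φ₂))
    have h3 := nn_nmul q₁ (q₂ * (s₂ * φ₁ + s₁ * φ₂))
    have h4 : (q₂ : ℝ) * nn (q₁ * (s₂ * φ₁ - s₁ * φ₂)) ≤ 2 * T * (256 * T ^ 2 * ε) :=
      mul_le_mul hq₂2 hq₁3' (nn_nonneg _) (by positivity)
    have h5 : (q₁ : ℝ) * nn (q₂ * (s₂ * φ₁ + s₁ * φ₂)) ≤ 2 * T * (1028 * T ^ 2 * ε) :=
      mul_le_mul hq₁2 h1 (nn_nonneg _) (by positivity)
    have h12 : (2568 : ℝ) ≤ T ^ 12 := by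
      have : (2 : ℝ) ^ 12 ≤ T ^ 12 := pow_le_pow_left₀ (by norm_num) hT 12
      linarith
    calc nn (q₂ * (q₁ * (s₂ * φ₁ - s₁ * φ₂))) + nn (q₁ * (q₂ * (s₂ * φ₁ + s₁ * φ₂)))
        ≤ 2568 * (T ^ 3 * ε) := by linarith
      _ ≤ T ^ 12 * (T ^ 3 * ε) := mul_le_mul_of_nonneg_right h12 (by positivity)
      _ = T ^ 15 * ε := by ring

end Pool.Agent.E8helper64.GB
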