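import Pool.Agent.E8helper64.GB.Est3A
import Pool.Agent.E8helper66.GB.U3

set_option autoImplicit false

/-!
Project GB (helper66), piece GB-20 (EST3).
-/

namespace Pool.Agent.E8helper64.GB

open Finset
open Pool.Agent.H807R2.Dav (ee norm_ee ee_add ee_int ee_zero ee_pow ee_eq)
open Pool.Agent.H373R2.T7 (lamz pz Vz Vz_pos lamz_nonneg mem_pz Vz_inv_small)
open Pool.Agent.E8helper66.GB
open Pool.Agent.E8helper81.GB

/-- the Cauchy-Schwarz step -/
lemma gow3 (n N : ℕ) (hn : 2 * n + 3 = N) (A : Finset ℤ) (hA : A ⊆ Icc (1 : ℤ) n)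
    (P Q F : ℤ → ℝ) (hP : ∀ x : ℤ, ¬ (1 ≤ x ∧ x ≤ N) → P x = 0) (hQ : ∀ x : ℤ, ¬ (-(N : ℤ) ≤ x ∧ x ≤ N) → Q x = 0)
    (hF : ∀ x : ℤ, ¬ (1 ≤ x ∧ x ≤ N) → F x = 0) :
    (∑ a ∈ A, ∑ b ∈ Icc (-1 : ℤ) n, P (a + b) * Q (a - b) * F (2 * b + 3)) ^ 2 ≤ n * ∑ h ∈ Icc (-((n : ℤ) + 1)) (n + 1),
      ‖TG n N (fun b => ((F (2 * b + 3) * F (2 * (b + h) + 3) : ℝ) : ℂ)) (fun x => ((P x * P (x + h) : ℝ) : ℂ))
        (fun t => ((Q (-t) * Q (-t - h) : ℝ) : ℂ))‖ := by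
  classical
  set I : Finset ℤ := Icc (-(2 * N : ℤ)) (2 * N) with hI
  set S : ℤ → ℝ := fun a => ∑ b ∈ Icc (-1 : ℤ) n, P (a + b) * Q (a - b) * F (2 * b + 3) with hS
  have h1 : (∑ a ∈ A, S a) ^ 2 ≤ n * ∑ a ∈ I, S a ^ 2 := by
    calc (∑ a ∈ A, S a) ^ 2 ≤ A.card * ∑ a ∈ A, S a ^ 2 := sq_sum_le_card_mul_sum_sq
      _ ≤ n * ∑ a ∈ I, S a ^ 2 := by
        have e1 : (A.card : ℝ) ≤ n := by
          have := card_le_card hA
          rw [Int.card_Icc] at this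
          have e2 : A.card ≤ n := by omega
          exact_mod_cast e2
        have e3 : ∑ a ∈ A, S a ^ 2 ≤ ∑ a ∈ I, S a ^ 2 := by
          refine sum_le_sum_of_subset_of_nonneg ?_ (fun _ _ _ => sq_nonneg _)
          intro b hb
          have := hA hb
          rw [mem_Icc] at this
          rw [hI, mem_Icc]
          omega
        have e4 : 0 ≤ ∑ b ∈ A, S b ^ 2 := sum_nonneg fun _ _ => sq_nonneg _
        exact mul_le_mul e1 e3 e4 (Nat.cast_nonneg _)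
  refine h1.trans (mul_le_mul_of_nonneg_left ?_ (Nat.cast_nonneg _))
  have h2 : ((∑ a ∈ I, S a ^ 2 : ℝ) : ℂ) = ∑ h ∈ Icc (-((n : ℤ) + 1)) (n + 1),
      TG n N (fun b => ((F (2 * b + 3) * F (2 * (b + h) + 3) : ℝ) : ℂ)) (fun x => ((P x * P (x + h) : ℝ) : ℂ))
        (fun t => ((Q (-t) * Q (-t - h) : ℝ) : ℂ)) := by
    -- expand the square
    have e1 : ∀ a ∈ I, S a ^ 2 = ∑ h ∈ Icc (-((n : ℤ) + 1)) (n + 1), ∑ b ∈ Icc (-1 : ℤ) n,
        (F (2 * b + 3) * F (2 * (b + h) + 3)) * ((P (a + b) * P (a + b + h)) * (Q (a - b) * Q (a - b - h))) := by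
      intro a _
      rw [sq, hS]
      simp only
      rw [sum_mul_sum, sum_comm (s := Icc (-((n : ℤ) + 1)) (n + 1))]
      refine sum_congr rfl fun b hb => ?_
      rw [mem_Icc] at hb
      have e2 : ∑ h ∈ Icc (-((n : ℤ) + 1)) (n + 1),
          (F (2 * b + 3) * F (2 * (b + h) + 3)) * ((P (a + b) * P (a + b + h)) * (Q (a - b) * Q (a - b - h))) =
          ∑ h ∈ Icc (-1 - b) (n - b),
          (F (2 * b + 3) * F (2 * (b + h) + 3)) * ((P (a + b) * P (a + b + h)) * (Q (a - b) * Q (a - b - h))) := by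
        symm
        refine sum_subset ?_ ?_
        · intro h hh
          rw [mem_Icc] at hh ⊢
          omega
        · intro h _ hh
          rw [mem_Icc] at hh
          rw [hF (2 * (b + h) + 3) (by omega)]
          simp
      rw [e2]
      refine sum_nbij' (fun b' => b' - b) (fun h => b + h) ?_ ?_ ?_ ?_ ?_
      · intro b' hb'; simp only [mem_Icc] at hb' ⊢; omega
      · intro h hh; simp only [mem_Icc] at hh ⊢; omega
      · intro b' _; ring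
      · intro h _; ring
      · intro b' _
        rw [show b + (b' - b) = b' by ring, show a + b + (b' - b) = a + b' by ring,
          show a - b - (b' - b) = a - b' by ring]
        ring
    rw [sum_congr rfl e1, sum_comm]
    push_cast
    refine sum_congr rfl fun h _ => ?_
    rw [sum_comm, TG]
    refine sum_congr rfl fun b hb => ?_
    rw [mem_Icc] at hb
    have e3 : ∀ x ∈ Icc (1 : ℤ) N, (∑ t ∈ Icc (-(N : ℤ)) N, if x + t = 2 * b then
        ((F (2 * b + 3) : ℂ) * (F (2 * (b + h) + 3) : ℂ)) * ((P x : ℂ) * (P (x + h) : ℂ)) * ((Q (-t) : ℂ) * (Q (-t - h) : ℂ)) else 0) =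
        ((F (2 * b + 3) : ℂ) * (F (2 * (b + h) + 3) : ℂ)) * ((P x : ℂ) * (P (x + h) : ℂ)) *
          ((Q (x - 2 * b) : ℂ) * (Q (x - 2 * b - h) : ℂ)) := by
      intro x _
      have e4 : ∀ t ∈ Icc (-(N : ℤ)) N, (if x + t = 2 * b then
          ((F (2 * b + 3) : ℂ) * (F (2 * (b + h) + 3) : ℂ)) * ((P x : ℂ) * (P (x + h) : ℂ)) * ((Q (-t) : ℂ) * (Q (-t - h) : ℂ)) else 0) =
          if t = 2 * b - x then
          ((F (2 * b + 3) : ℂ) * (F (2 * (b + h) + 3) : ℂ)) * ((P x : ℂ) * (P (x + h) : ℂ)) * ((Q (-t) : ℂ) * (Q (-t - h) : ℂ)) else 0 := by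
        intro t _
        by_cases h5 : x + t = 2 * b
        · rw [if_pos h5, if_pos (by omega)]
        · rw [if_neg h5, if_neg (by omega)]
      rw [sum_congr rfl e4, sum_ite_eq']
      by_cases h6 : 2 * b - x ∈ Icc (-(N : ℤ)) N
      · rw [if_pos h6, show -(2 * b - x) = x - 2 * b by ring]
      · rw [if_neg h6]
        rw [mem_Icc] at h6
        rw [hQ (x - 2 * b) (by omega)]; simp
    rw [sum_congr rfl e3]
    have e5 : ∑ x ∈ Icc (1 : ℤ) N, ((F (2 * b + 3) : ℂ) * (F (2 * (b + h) + 3) : ℂ)) * ((P x : ℂ) * (P (x + h) : ℂ)) *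
          ((Q (x - 2 * b) : ℂ) * (Q (x - 2 * b - h) : ℂ)) =
        ∑ x ∈ Icc (b - 2 * N) (b + 2 * N), ((F (2 * b + 3) : ℂ) * (F (2 * (b + h) + 3) : ℂ)) * ((P x : ℂ) * (P (x + h) : ℂ)) *
          ((Q (x - 2 * b) : ℂ) * (Q (x - 2 * b - h) : ℂ)) := by
      refine sum_subset ?_ ?_
      · intro s hs
        rw [mem_Icc] at hs ⊢
        omega
      · intro s _ hs
        rw [mem_Icc] at hs
        rw [hP _ hs]; simp
    rw [e5]
    refine sum_nbij' (fun a => a + b) (fun x => x - b) ?_ ?_ ?_ ?_ ?_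
    · intro a ha; simp only [hI, mem_Icc] at ha ⊢; omega
    · intro x hx; simp only [hI, mem_Icc] at hx ⊢; omega
    · intro a _; ring
    · intro x _; ring
    · intro a _
      rw [show a + b - 2 * b = a - b by ring]
      ring
  have h3 : ∑ a ∈ I, S a ^ 2 ≤ ‖((∑ a ∈ I, S a ^ 2 : ℝ) : ℂ)‖ := by
    rw [Complex.norm_real]
    exact Real.le_norm_self _
  rw [h2] at h3
  exact h3.trans (norm_sum_le _ _)

/-- the sum with the three factors -/
lemma tri (n N : ℕ) (hn : 2 * n + 3 = N) (A : Finset ℤ) (hA : A ⊆ Icc (1 : ℤ) n) (f : ℕ → ℝ) (P Q : ℤ → ℝ)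
    (hP : ∀ x : ℤ, ¬ (1 ≤ x ∧ x ≤ N) → P x = 0) (hQ : ∀ x : ℤ, ¬ (-(N : ℤ) ≤ x ∧ x ≤ N) → Q x = 0)
    (G V : ℝ) (hG : 0 ≤ G) (hPG : ∀ x, |P x| ≤ G) (hQG : ∀ x, |Q x| ≤ G)
    (hV : ∀ (κ : ℤ → ℂ) (θ : ℤ → ℝ), (∀ h, ‖κ h‖ ≤ 1) →
      ‖∑ x ∈ Icc 1 N, (f x : ℂ) * FF N (fun y => (f y : ℂ)) κ θ x‖ ≤ V) :
    (∑ a ∈ A, ∑ b ∈ Icc (-1 : ℤ) n, P (a + b) * Q (a - b) * xt N f (2 * b + 3)) ^ 2 ≤ n * (V * (2 * N * G ^ 4)) := by
  obtain ⟨M, hM, hMV⟩ := max_h N (2 * (4 * N)) (by omega) f V hV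
  have hM0 : ∀ h, 0 ≤ M h := fun h => (norm_nonneg _).trans (hM h 0 (mem_range.2 (by omega)))
  have hsq : ∀ (x y : ℝ), |x| ≤ G → |y| ≤ G → ‖((x * y : ℝ) : ℂ)‖ ≤ G ^ 2 := by
    intro x y hx hy
    rw [Complex.norm_real, Real.norm_eq_abs, abs_mul, sq]
    exact mul_le_mul hx hy (abs_nonneg _) hG
  refine (gow3 n N hn A hA P Q (xt N f) hP hQ (xt_out N f)).trans ?_
  refine mul_le_mul_of_nonneg_left ?_ (Nat.cast_nonneg _)
  have hT : ∀ h ∈ Icc (-((n : ℤ) + 1)) (n + 1),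
      ‖TG n N (fun b => ((xt N f (2 * b + 3) * xt N f (2 * (b + h) + 3) : ℝ) : ℂ)) (fun x => ((P x * P (x + h) : ℝ) : ℂ))
        (fun t => ((Q (-t) * Q (-t - h) : ℝ) : ℂ))‖ ≤ M (2 * h) * (2 * N * G ^ 4) := by
    intro h _
    have e1 := TG_le n N (2 * (4 * N)) hn (by omega)
      (fun b => ((xt N f (2 * b + 3) * xt N f (2 * (b + h) + 3) : ℝ) : ℂ)) (fun x => ((P x * P (x + h) : ℝ) : ℂ))
      (fun t => ((Q (-t) * Q (-t - h) : ℝ) : ℂ)) (M (2 * h)) (G ^ 2) ?_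
      (fun x _ => hsq _ _ (hPG _) (hPG _)) (fun t _ => hsq _ _ (hQG _) (hQG _))
    · refine e1.trans (le_of_eq ?_)
      ring
    · intro j _
      have e2 := sup_odd n N (4 * N) hn (by omega)
        (fun s => ((xt N f s * xt N f (s + 2 * h) : ℝ) : ℂ)) (M (2 * h)) (fun j hj => hM (2 * h) j hj) j
      refine le_trans (le_of_eq ?_) e2
      congr 1
      refine sum_congr rfl fun b _ => ?_
      rw [show 2 * (b + h) + 3 = 2 * b + 3 + 2 * h by ring]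
  refine (sum_le_sum hT).trans ?_
  rw [← sum_mul]
  refine mul_le_mul_of_nonneg_right ?_ (by positivity)
  refine le_trans ?_ hMV
  have e3 : ∑ h ∈ Icc (-((n : ℤ) + 1)) (n + 1), M (2 * h) =
      ∑ k ∈ (Icc (-((n : ℤ) + 1)) (n + 1)).image (fun h => 2 * h), M k := by
    rw [sum_image]
    intro x _ y _ hxy
    simp only at hxy
    omega
  rw [e3]
  refine sum_le_sum_of_subset_of_nonneg ?_ (fun k _ _ => hM0 k)
  intro k hk
  rw [mem_image] at hk
  obtain ⟨h, hh, rfl⟩ := hk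
  rw [mem_Icc] at hh ⊢
  omega

lemma ev_pow (c : ℕ) (C : ℝ) : ∃ N0 : ℕ, ∀ N : ℕ, N0 ≤ N → C * Real.log N ^ c ≤ N := by
  have h1 : (fun x : ℝ => Real.log x ^ c) =o[Filter.atTop] (fun x : ℝ => x) := Real.isLittleO_pow_log_id_atTop
  have h2 : (fun x : ℝ => C * Real.log x ^ c) =o[Filter.atTop] (fun x : ℝ => x) := h1.const_mul_left C
  have h3 := h2.bound (c := 1) one_pos
  have h4 := (tendsto_natCast_atTop_atTop (R := ℝ)).eventually h3
  rw [Filter.eventually_atTop] at h4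
  obtain ⟨N0, h4⟩ := h4
  refine ⟨N0, fun N hN => ?_⟩
  have h5 := h4 N hN
  rw [one_mul, Real.norm_eq_abs, Real.norm_eq_abs, Nat.abs_cast] at h5
  exact (le_abs_self _).trans h5

theorem t_EST3 (hU3 : S_U3) : S_EST3 := by
  intro U
  obtain ⟨B, hB⟩ := hU3 (2 * U + 5)
  refine ⟨B + 1, fun K => ?_⟩
  obtain ⟨N₀, hN₀⟩ := hB K
  obtain ⟨N₁, hN₁⟩ := Vz_inv_small K
  obtain ⟨N₂, hN₂⟩ := ev_log ((2 : ℝ) ^ B + 1000)
  obtain ⟨N₃, hN₃⟩ := ev_pow (U + 3) 64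
  refine ⟨N₀ + N₁ + N₂ + N₃ + 1, fun n hn z hz1 hz2 A hA => ?_⟩
  have hlog := hN₂ n (by omega)
  have hpw := hN₃ n (by omega)
  have hpos : (0 : ℝ) < (2 : ℝ) ^ B := by positivity
  set L := Real.log n with hL
  have hL1000 : 1000 ≤ L := by linarith
  have hn1 : (1 : ℝ) ≤ n := by
    have : 1 ≤ n := by omega
    exact_mod_cast this
  have hnpos : (0 : ℝ) < n := by linarith
  set N := 2 * n + 3 with hN
  set L2 := Real.log ((N : ℕ) : ℝ) with hL2
  have hNn : (N : ℝ) = 2 * n + 3 := by rw [hN]; push_cast; ring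
  have hN5 : (N : ℝ) ≤ 5 * n := by rw [hNn]; linarith
  have hnN : (n : ℝ) ≤ N := by rw [hNn]; linarith
  have hLL2 : L ≤ L2 := Real.log_le_log hnpos hnN
  have hL2L : L2 ≤ 2 * L := by
    have e1 : L2 ≤ Real.log (5 * n) := Real.log_le_log (by linarith) hN5
    rw [Real.log_mul (by norm_num) hnpos.ne'] at e1
    have e2 : Real.log 5 ≤ 5 := by
      have := Real.log_le_sub_one_of_pos (show (0 : ℝ) < 5 by norm_num)
      linarith
    linarith
  have hL2pos : 0 < L2 := by linarith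
  have hz1' : L2 ^ B ≤ z := by
    calc L2 ^ B ≤ (2 * L) ^ B := pow_le_pow_left₀ hL2pos.le hL2L B
      _ = 2 ^ B * L ^ B := by rw [mul_pow]
      _ ≤ L * L ^ B := by
        have : 0 ≤ L ^ B := by positivity
        nlinarith
      _ = L ^ (B + 1) := by ring
      _ ≤ z := hz1
  have hz2' : (z : ℝ) ≤ L2 ^ K := hz2.trans (pow_le_pow_left₀ (by linarith) hLL2 K)
  have hzge : 2 ≤ z := by
    have h1 : (2 : ℝ) ≤ L ^ (B + 1) := by
      calc (2 : ℝ) ≤ L := by linarith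
        _ = L ^ 1 := (pow_one L).symm
        _ ≤ L ^ (B + 1) := pow_le_pow_right₀ (by linarith) (by omega)
    exact_mod_cast h1.trans hz1
  have hu := hN₀ N (by omega) z hz1' hz2'
  have hv := hN₁ N (by omega) z (by omega) hz2'
  rw [← hL2] at hv
  set V := ((N : ℕ) : ℝ) ^ 2 / L2 ^ (2 * U + 5) with hV
  -- the functions
  set f : ℕ → ℝ := fun y => ArithmeticFunction.vonMangoldt y - lamz z y with hf
  set l : ℕ → ℝ := fun y => lamz z y with hl
  set A' : Finset ℤ := A.map Nat.castEmbedding with hA'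
  have hA'' : A' ⊆ Icc (1 : ℤ) n := by
    intro x hx
    rw [hA', mem_map] at hx
    obtain ⟨a, ha, rfl⟩ := hx
    have := hA ha
    simp only [mem_Icc, Nat.castEmbedding_apply] at this ⊢
    omega
  have hgz : ∀ x ∈ Icc 1 N, |l x| ≤ L2 := by
    intro x hx
    simp only [hl]
    rw [abs_of_nonneg (lamz_nonneg z x)]
    exact (lamz_le_inv z x).trans hv
  have hfz : ∀ x ∈ Icc 1 N, |f x| ≤ L2 := by
    intro x hx
    rw [mem_Icc] at hx
    simp only [hf]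
    have e1 : ArithmeticFunction.vonMangoldt x ≤ L2 := by
      refine ArithmeticFunction.vonMangoldt_le_log.trans ?_
      refine Real.log_le_log (by exact_mod_cast hx.1) ?_
      exact_mod_cast hx.2
    have e2 : lamz z x ≤ L2 := (lamz_le_inv z x).trans hv
    have e3 : 0 ≤ lamz z x := lamz_nonneg z x
    have e4 : 0 ≤ ArithmeticFunction.vonMangoldt x := ArithmeticFunction.vonMangoldt_nonneg
    rw [abs_le]
    constructor <;> linarith
  set P : ℤ → ℝ := xt N l with hP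
  set Q : ℤ → ℝ := fun t => xt N l t + xt N l (-t) with hQ
  have hP0 : ∀ x : ℤ, ¬ (1 ≤ x ∧ x ≤ N) → P x = 0 := xt_out N l
  have hQ0 : ∀ x : ℤ, ¬ (-(N : ℤ) ≤ x ∧ x ≤ N) → Q x = 0 := by
    intro x hx
    simp only [hQ]
    rw [xt_out N l x (by omega), xt_out N l (-x) (by omega), add_zero]
  have hPG : ∀ x, |P x| ≤ L2 := xt_abs N l L2 hL2pos.le hgz
  have hQG : ∀ x, |Q x| ≤ L2 := by
    intro x
    simp only [hQ]
    rcases le_or_gt x 0 with hx | hx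
    · rw [xt_out N l x (by omega), zero_add]
      exact hPG (-x)
    · rw [xt_out N l (-x) (by omega), add_zero]
      exact hPG x
  have hVV : ∀ (κ : ℤ → ℂ) (θ : ℤ → ℝ), (∀ h, ‖κ h‖ ≤ 1) →
      ‖∑ x ∈ Icc 1 N, (f x : ℂ) * FF N (fun y => (f y : ℂ)) κ θ x‖ ≤ V :=
    fun κ θ hκ => hu κ θ hκ
  have hmain := tri n N rfl A' hA'' f P Q hP0 hQ0 L2 V hL2pos.le hPG hQG hVV
  set W := ∑ a ∈ A', ∑ b ∈ Icc (-1 : ℤ) n, P (a + b) * Q (a - b) * xt N f (2 * b + 3) with hW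
  have hW2 : |W| ≤ (n : ℝ) ^ 2 / (2 * L ^ U) := by
    refine abs_le_of_sq_le_sq (hmain.trans ?_) (by positivity)
    have e1 : (n : ℝ) * (V * (2 * N * L2 ^ 4)) = 2 * n * N ^ 3 / L2 ^ (2 * U + 1) := by
      rw [hV]
      field_simp
      ring
    have e2 : ((n : ℝ) ^ 2 / (2 * L ^ U)) ^ 2 = n ^ 4 / (4 * L ^ (2 * U)) := by
      rw [div_pow, mul_pow, ← pow_mul, ← pow_mul]
      congr 2
      · norm_num
      · ring
    rw [e1, e2, div_le_div_iff₀ (by positivity) (by positivity)]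
    have e3 : (N : ℝ) ^ 3 ≤ 125 * n ^ 3 := by
      calc (N : ℝ) ^ 3 ≤ (5 * n) ^ 3 := pow_le_pow_left₀ (by linarith) hN5 3
        _ = 125 * n ^ 3 := by ring
    have e4 : 1000 * L ^ (2 * U) ≤ L2 ^ (2 * U + 1) := by
      rw [pow_succ, mul_comm]
      exact mul_le_mul (pow_le_pow_left₀ (by linarith) hLL2 _) (by linarith) (by norm_num) (by positivity)
    calc 2 * (n : ℝ) * N ^ 3 * (4 * L ^ (2 * U)) ≤ 2 * n * (125 * n ^ 3) * (4 * L ^ (2 * U)) := by gcongr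
      _ = n ^ 4 * (1000 * L ^ (2 * U)) := by ring
      _ ≤ n ^ 4 * L2 ^ (2 * U + 1) := by gcongr
  -- the pointwise identity
  have hpt : ∀ a ∈ A, ∀ b ∈ Icc 1 n, KZ z a b * (ArithmeticFunction.vonMangoldt (2 * b + 3) - lamz z (2 * b + 3)) =
      P ((a : ℤ) + (b : ℤ)) * Q ((a : ℤ) - (b : ℤ)) * xt N f (2 * (b : ℤ) + 3) := by
    intro a ha b hb
    have ha' := hA ha
    rw [mem_Icc] at ha' hb
    have e1 : P ((a : ℤ) + (b : ℤ)) = lamz z (a + b) := by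
      simp only [hP]
      rw [← Nat.cast_add, xt_in _ _ _ (by omega) (by omega)]
    have e2 : xt N f (2 * (b : ℤ) + 3) = ArithmeticFunction.vonMangoldt (2 * b + 3) - lamz z (2 * b + 3) := by
      have : (2 * (b : ℤ) + 3) = ((2 * b + 3 : ℕ) : ℤ) := by push_cast; ring
      rw [this, xt_in _ _ _ (by omega) (by omega)]
    have e3 : Q ((a : ℤ) - (b : ℤ)) = lamz z (Nat.dist a b) := by
      simp only [hQ]
      rcases lt_trichotomy a b with hab | hab | hab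
      · have e : (-((a : ℤ) - b)) = ((Nat.dist a b : ℕ) : ℤ) := by
          rw [Nat.dist_eq_sub_of_le hab.le]; omega
        rw [xt_out N l ((a : ℤ) - b) (by omega), e, xt_in _ _ _ (by rw [Nat.dist_eq_sub_of_le hab.le]; omega)
          (by rw [Nat.dist_eq_sub_of_le hab.le]; omega), zero_add]
      · subst hab
        rw [sub_self, neg_zero, xt_out N l 0 (by omega), Nat.dist_self, lamz_zero z hzge, add_zero]
      · have e : ((a : ℤ) - b) = ((Nat.dist a b : ℕ) : ℤ) := by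
          rw [Nat.dist_eq_sub_of_le_right hab.le]; omega
        rw [xt_out N l (-((a : ℤ) - b)) (by omega), e, xt_in _ _ _ (by rw [Nat.dist_eq_sub_of_le_right hab.le]; omega)
          (by rw [Nat.dist_eq_sub_of_le_right hab.le]; omega), add_zero]
    rw [e1, e2, e3, KZ]
  have htot : ∑ a ∈ A, ∑ b ∈ Icc 1 n, KZ z a b * (ArithmeticFunction.vonMangoldt (2 * b + 3) - lamz z (2 * b + 3)) =
      W - ∑ a ∈ A, ∑ b ∈ Icc (-1 : ℤ) 0, P ((a : ℤ) + b) * Q ((a : ℤ) - b) * xt N f (2 * b + 3) := by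
    rw [hW, hA', sum_map, ← sum_sub_distrib]
    refine sum_congr rfl fun a ha => ?_
    rw [sum_congr rfl (fun b hb => hpt a ha b hb), eq_sub_iff_add_eq]
    have e1 : ∑ b ∈ Icc 1 n, P ((a : ℤ) + (b : ℤ)) * Q ((a : ℤ) - (b : ℤ)) * xt N f (2 * (b : ℤ) + 3) =
        ∑ b ∈ Icc (1 : ℤ) n, P ((a : ℤ) + b) * Q ((a : ℤ) - b) * xt N f (2 * b + 3) := by
      refine sum_nbij' (fun x => (x : ℤ)) (fun s => s.toNat) ?_ ?_ ?_ ?_ ?_
      · intro x hx; simp only [mem_Icc] at hx ⊢; omega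
      · intro x hx; simp only [mem_Icc] at hx ⊢; omega
      · intro x hx; simp
      · intro x hx; simp only [mem_Icc] at hx; omega
      · intro x hx; rfl
    rw [e1]
    have e2 : Icc (-1 : ℤ) n = Icc (-1 : ℤ) 0 ∪ Icc (1 : ℤ) n := by
      ext x; simp only [mem_Icc, mem_union]; omega
    rw [e2, sum_union, add_comm]
    · rfl
    · rw [disjoint_left]
      intro x hx hx'
      rw [mem_Icc] at hx hx'
      omega
  have hrest : |∑ a ∈ A, ∑ b ∈ Icc (-1 : ℤ) 0, P ((a : ℤ) + b) * Q ((a : ℤ) - b) * xt N f (2 * b + 3)| ≤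
      (n : ℝ) ^ 2 / (2 * L ^ U) := by
    have e1 : ∀ (a : ℕ) (b : ℤ), |P ((a : ℤ) + b) * Q ((a : ℤ) - b) * xt N f (2 * b + 3)| ≤ L2 ^ 3 := by
      intro a b
      rw [abs_mul, abs_mul]
      have g1 := hPG ((a : ℤ) + b)
      have g2 := hQG ((a : ℤ) - b)
      have g3 := xt_abs N f L2 hL2pos.le hfz (2 * b + 3)
      calc |P ((a : ℤ) + b)| * |Q ((a : ℤ) - b)| * |xt N f (2 * b + 3)| ≤ L2 * L2 * L2 := by gcongr
        _ = L2 ^ 3 := by ring
    have e2 : |∑ a ∈ A, ∑ b ∈ Icc (-1 : ℤ) 0, P ((a : ℤ) + b) * Q ((a : ℤ) - b) * xt N f (2 * b + 3)| ≤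
        ∑ a ∈ A, ∑ b ∈ Icc (-1 : ℤ) 0, L2 ^ 3 := by
      refine (abs_sum_le_sum_abs _ _).trans (sum_le_sum fun a _ => ?_)
      exact (abs_sum_le_sum_abs _ _).trans (sum_le_sum fun b _ => e1 a b)
    refine e2.trans ?_
    rw [sum_const, sum_const, Int.card_Icc]
    have e3 : ((0 : ℤ) + 1 - -1).toNat = 2 := by decide
    rw [e3, nsmul_eq_mul, nsmul_eq_mul]
    have e4 : (A.card : ℝ) ≤ n := by
      have := card_le_card hA
      rw [Nat.card_Icc] at this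
      have : A.card ≤ n := by omega
      exact_mod_cast this
    have e5 : L2 ^ 3 ≤ 8 * L ^ 3 := by
      calc L2 ^ 3 ≤ (2 * L) ^ 3 := pow_le_pow_left₀ hL2pos.le hL2L 3
        _ = 8 * L ^ 3 := by ring
    have e6 : (A.card : ℝ) * (((2 : ℕ) : ℝ) * L2 ^ 3) ≤ n * (2 * (8 * L ^ 3)) := by
      push_cast
      gcongr
    refine e6.trans ?_
    rw [le_div_iff₀ (by positivity)]
    have e7 : 64 * (L ^ U * L ^ 3) ≤ n := by
      rw [← pow_add]; exact hpw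
    have e8 : 0 ≤ L ^ U * L ^ 3 := by positivity
    nlinarith
  rw [htot]
  calc |W - ∑ a ∈ A, ∑ b ∈ Icc (-1 : ℤ) 0, P ((a : ℤ) + b) * Q ((a : ℤ) - b) * xt N f (2 * b + 3)| ≤
      |W| + |∑ a ∈ A, ∑ b ∈ Icc (-1 : ℤ) 0, P ((a : ℤ) + b) * Q ((a : ℤ) - b) * xt N f (2 * b + 3)| := abs_sub _ _
    _ ≤ (n : ℝ) ^ 2 / (2 * L ^ U) + (n : ℝ) ^ 2 / (2 * L ^ U) := add_le_add hW2 hrest
    _ = (n : ℝ) ^ 2 / L ^ U := by field_simp; ring

end Pool.Agent.E8helper64.GB
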