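import Pool.Agent.E8helper66.GB.Stm2
import Pool.Agent.E8helper81.GB.Est

set_option autoImplicit false

/-!
Project GB (helper66), piece GB-20 (EST3), part A.
-/

namespace Pool.Agent.E8helper64.GB

open Finset
open Pool.Agent.H807R2.Dav (ee norm_ee ee_add ee_int ee_zero ee_pow ee_eq)
open Pool.Agent.E8helper81.GB

/-- the trilinear form -/
noncomputable def TG (n N : ℕ) (g p q : ℤ → ℂ) : ℂ :=
  ∑ b ∈ Icc (-1 : ℤ) n, ∑ x ∈ Icc (1 : ℤ) N, ∑ t ∈ Icc (-(N : ℤ)) N, if x + t = 2 * b then g b * p x * q t else 0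

lemma TG_four (n N R : ℕ) (hn : 2 * n + 3 = N) (hR : 4 * N < R) (g p q : ℤ → ℂ) :
    (R : ℂ) * TG n N g p q = ∑ j ∈ range R, (∑ b ∈ Icc (-1 : ℤ) n, g b * ee ((j : ℝ) * (((-2 * b : ℤ) : ℝ) / R))) *
      (∑ x ∈ Icc (1 : ℤ) N, p x * ee ((j : ℝ) * ((x : ℝ) / R))) *
      (∑ t ∈ Icc (-(N : ℤ)) N, q t * ee ((j : ℝ) * ((t : ℝ) / R))) := by
  have hR0 : 0 < R := by omega
  have h1 : ∀ j ∈ range R, (∑ b ∈ Icc (-1 : ℤ) n, g b * ee ((j : ℝ) * (((-2 * b : ℤ) : ℝ) / R))) *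
      (∑ x ∈ Icc (1 : ℤ) N, p x * ee ((j : ℝ) * ((x : ℝ) / R))) *
      (∑ t ∈ Icc (-(N : ℤ)) N, q t * ee ((j : ℝ) * ((t : ℝ) / R))) =
      ∑ b ∈ Icc (-1 : ℤ) n, ∑ x ∈ Icc (1 : ℤ) N, ∑ t ∈ Icc (-(N : ℤ)) N,
        (g b * p x * q t) * ee ((j : ℝ) * (((x + t - 2 * b : ℤ) : ℝ) / R)) := by
    intro j _
    rw [sum_mul_sum, sum_mul]
    refine sum_congr rfl fun a _ => ?_
    rw [sum_mul]
    refine sum_congr rfl fun s _ => ?_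
    rw [mul_sum]
    refine sum_congr rfl fun t _ => ?_
    have : ee ((j : ℝ) * (((s + t - 2 * a : ℤ) : ℝ) / R)) =
        ee ((j : ℝ) * (((-2 * a : ℤ) : ℝ) / R)) * ee ((j : ℝ) * ((s : ℝ) / R)) * ee ((j : ℝ) * ((t : ℝ) / R)) := by
      rw [← ee_add, ← ee_add]; congr 1; push_cast; ring
    rw [this]; ring
  rw [sum_congr rfl h1, sum_comm, TG, mul_sum]
  refine sum_congr rfl fun a ha => ?_
  conv_rhs => rw [sum_comm]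
  rw [mul_sum]
  refine sum_congr rfl fun s hs => ?_
  conv_rhs => rw [sum_comm]
  rw [mul_sum]
  refine sum_congr rfl fun t ht => ?_
  rw [mem_Icc] at ha hs ht
  rw [← mul_sum, orth R hR0 _ (by rw [abs_lt]; omega)]
  by_cases h : s + t = 2 * a
  · rw [if_pos h, if_pos (by omega)]; ring
  · rw [if_neg h, if_neg (by omega)]; ring

lemma TG_le (n N R : ℕ) (hn : 2 * n + 3 = N) (hR : 4 * N < R) (g p q : ℤ → ℂ) (M Q : ℝ)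
    (hM : ∀ j ∈ range R, ‖∑ b ∈ Icc (-1 : ℤ) n, g b * ee ((j : ℝ) * (((-2 * b : ℤ) : ℝ) / R))‖ ≤ M)
    (hp : ∀ x ∈ Icc (1 : ℤ) N, ‖p x‖ ≤ Q) (hq : ∀ t ∈ Icc (-(N : ℤ)) N, ‖q t‖ ≤ Q) :
    ‖TG n N g p q‖ ≤ M * (2 * N * Q ^ 2) := by
  have hR0 : 0 < R := by omega
  have hR' : (0 : ℝ) < R := by exact_mod_cast hR0
  have hM0 : 0 ≤ M := (norm_nonneg _).trans (hM 0 (mem_range.2 hR0))
  have h1 := TG_four n N R hn hR g p q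
  set G : ℕ → ℂ := fun j => ∑ b ∈ Icc (-1 : ℤ) n, g b * ee ((j : ℝ) * (((-2 * b : ℤ) : ℝ) / R)) with hG
  set P : ℕ → ℂ := fun j => ∑ s ∈ Icc (1 : ℤ) N, p s * ee ((j : ℝ) * ((s : ℝ) / R)) with hP
  set H : ℕ → ℂ := fun j => ∑ t ∈ Icc (-(N : ℤ)) N, q t * ee ((j : ℝ) * ((t : ℝ) / R)) with hH
  have h2 : ∑ j ∈ range R, ‖P j‖ ^ 2 = R * ∑ a ∈ Icc (1 : ℤ) N, ‖p a‖ ^ 2 := by
    refine pars R hR0 (Icc (1 : ℤ) N) (fun a => a) p (fun s _ t _ h => h) ?_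
    intro s hs t ht
    rw [mem_Icc] at hs ht
    rw [abs_lt]; constructor <;> omega
  have h3 : ∑ j ∈ range R, ‖H j‖ ^ 2 = R * ∑ a ∈ Icc (-(N : ℤ)) N, ‖q a‖ ^ 2 := by
    refine pars R hR0 (Icc (-(N : ℤ)) N) (fun a => a) q (fun s _ t _ h => h) ?_
    intro s hs t ht
    rw [mem_Icc] at hs ht
    rw [abs_lt]; constructor <;> omega
  have hcard : ((Icc (1 : ℤ) N).card : ℝ) = N := by
    rw [Int.card_Icc]; simp
  have hcard2 : ((Icc (-(N : ℤ)) N).card : ℝ) = 2 * N + 1 := by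
    rw [Int.card_Icc]
    have : ((N : ℤ) + 1 - -(N : ℤ)).toNat = 2 * N + 1 := by omega
    rw [this]; push_cast; ring
  have h4 : ∑ a ∈ Icc (1 : ℤ) N, ‖p a‖ ^ 2 ≤ N * Q ^ 2 := by
    calc ∑ a ∈ Icc (1 : ℤ) N, ‖p a‖ ^ 2 ≤ ∑ a ∈ Icc (1 : ℤ) N, Q ^ 2 :=
          sum_le_sum fun a ha => pow_le_pow_left₀ (norm_nonneg _) (hp a ha) 2
      _ = N * Q ^ 2 := by rw [sum_const, nsmul_eq_mul, hcard]
  have h5 : ∑ a ∈ Icc (-(N : ℤ)) N, ‖q a‖ ^ 2 ≤ (2 * N + 1) * Q ^ 2 := by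
    calc ∑ a ∈ Icc (-(N : ℤ)) N, ‖q a‖ ^ 2 ≤ ∑ a ∈ Icc (-(N : ℤ)) N, Q ^ 2 :=
          sum_le_sum fun a ha => pow_le_pow_left₀ (norm_nonneg _) (hq a ha) 2
      _ = (2 * N + 1) * Q ^ 2 := by rw [sum_const, nsmul_eq_mul, hcard2]
  have h6 : (R : ℝ) * ‖TG n N g p q‖ ≤ ∑ j ∈ range R, M * ((‖P j‖ ^ 2 + ‖H j‖ ^ 2) / 2) := by
    calc (R : ℝ) * ‖TG n N g p q‖ = ‖(R : ℂ) * TG n N g p q‖ := by rw [norm_mul]; simp
      _ = ‖∑ j ∈ range R, G j * P j * H j‖ := by rw [h1]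
      _ ≤ ∑ j ∈ range R, ‖G j * P j * H j‖ := norm_sum_le _ _
      _ ≤ _ := by
        refine sum_le_sum fun j hj => ?_
        rw [norm_mul, norm_mul]
        have e1 := hM j hj
        have e2 : ‖P j‖ * ‖H j‖ ≤ (‖P j‖ ^ 2 + ‖H j‖ ^ 2) / 2 := by
          nlinarith [sq_nonneg (‖P j‖ - ‖H j‖)]
        calc ‖G j‖ * ‖P j‖ * ‖H j‖ = ‖G j‖ * (‖P j‖ * ‖H j‖) := by ring
          _ ≤ M * ((‖P j‖ ^ 2 + ‖H j‖ ^ 2) / 2) :=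
            mul_le_mul e1 e2 (by positivity) hM0
  have h7 : ∑ j ∈ range R, M * ((‖P j‖ ^ 2 + ‖H j‖ ^ 2) / 2) =
      M * (((R * ∑ a ∈ Icc (1 : ℤ) N, ‖p a‖ ^ 2) + (R * ∑ a ∈ Icc (-(N : ℤ)) N, ‖q a‖ ^ 2)) / 2) := by
    rw [← mul_sum, ← sum_div, sum_add_distrib, h2, h3]
  have hN1 : (1 : ℝ) ≤ N := by
    have : 1 ≤ N := by omega
    exact_mod_cast this
  have h8 : M * (((R * ∑ a ∈ Icc (1 : ℤ) N, ‖p a‖ ^ 2) + (R * ∑ a ∈ Icc (-(N : ℤ)) N, ‖q a‖ ^ 2)) / 2) ≤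
      M * (((R * (N * Q ^ 2)) + (R * ((2 * N + 1) * Q ^ 2))) / 2) := by
    gcongr
  have h9 : M * (((R * (N * Q ^ 2)) + (R * ((2 * N + 1) * Q ^ 2))) / 2) ≤ R * (M * (2 * N * Q ^ 2)) := by
    have e1 : R * (M * (2 * N * Q ^ 2)) - M * (((R * (N * Q ^ 2)) + (R * ((2 * N + 1) * Q ^ 2))) / 2) =
        M * R * Q ^ 2 * ((N - 1) / 2) := by ring
    have e2 : 0 ≤ M * R * Q ^ 2 * ((N - 1) / 2) := by
      have : (0 : ℝ) ≤ (N - 1) / 2 := by linarith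
      positivity
    linarith
  rw [h7] at h6
  have h10 := h6.trans (h8.trans h9)
  exact le_of_mul_le_mul_left h10 hR'

/-- the sum over the odd numbers -/
lemma sup_odd (n N R : ℕ) (hn : 2 * n + 3 = N) (hR : 0 < R) (c : ℤ → ℂ) (M : ℝ)
    (hM : ∀ j ∈ range (2 * R), ‖∑ s ∈ Icc (1 : ℤ) N, c s * ee ((j : ℝ) * ((s : ℝ) / ((2 * R : ℕ) : ℝ)))‖ ≤ M)
    (j : ℕ) : ‖∑ b ∈ Icc (-1 : ℤ) n, c (2 * b + 3) *
      ee ((j : ℝ) * (((-2 * b : ℤ) : ℝ) / ((2 * R : ℕ) : ℝ)))‖ ≤ M := by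
  have hR' : (0 : ℝ) < ((2 * R : ℕ) : ℝ) := by
    have : 0 < 2 * R := by omega
    exact_mod_cast this
  -- all integer frequencies
  have h1 : ∀ k : ℤ, ‖∑ s ∈ Icc (1 : ℤ) N, c s * ee ((k : ℝ) * ((s : ℝ) / ((2 * R : ℕ) : ℝ)))‖ ≤ M := by
    intro k
    have hk0 : 0 ≤ k % ((2 * R : ℕ) : ℤ) := Int.emod_nonneg _ (by omega)
    have hk1 : k % ((2 * R : ℕ) : ℤ) < ((2 * R : ℕ) : ℤ) := Int.emod_lt_of_pos _ (by omega)
    have hk2 : ((2 * R : ℕ) : ℤ) * (k / ((2 * R : ℕ) : ℤ)) + k % ((2 * R : ℕ) : ℤ) = k :=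
      Int.mul_ediv_add_emod k _
    obtain ⟨m, hm⟩ := Int.eq_ofNat_of_zero_le hk0
    rw [hm] at hk1 hk2
    have e1 := hM m (mem_range.2 (by exact_mod_cast hk1))
    have e2 : ∑ s ∈ Icc (1 : ℤ) N, c s * ee ((k : ℝ) * ((s : ℝ) / ((2 * R : ℕ) : ℝ))) =
        ∑ s ∈ Icc (1 : ℤ) N, c s * ee ((m : ℝ) * ((s : ℝ) / ((2 * R : ℕ) : ℝ))) := by
      refine sum_congr rfl fun s _ => ?_
      have e3 : (k : ℝ) * ((s : ℝ) / ((2 * R : ℕ) : ℝ)) =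
          (((k / ((2 * R : ℕ) : ℤ)) * s : ℤ) : ℝ) + (m : ℝ) * ((s : ℝ) / ((2 * R : ℕ) : ℝ)) := by
        have e4 : (k : ℝ) = ((2 * R : ℕ) : ℝ) * ((k / ((2 * R : ℕ) : ℤ) : ℤ) : ℝ) + (m : ℝ) := by
          exact_mod_cast hk2.symm
        rw [Int.cast_mul]
        conv_lhs => rw [e4]
        generalize (k / ((2 * R : ℕ) : ℤ) : ℤ) = w
        field_simp
      rw [e3, ee_add, ee_int, one_mul]
    rw [e2]
    exact e1
  have h2 : ∑ b ∈ Icc (-1 : ℤ) n, c (2 * b + 3) * ee ((j : ℝ) * (((-2 * b : ℤ) : ℝ) / ((2 * R : ℕ) : ℝ))) =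
      ee ((j : ℝ) * (3 / ((2 * R : ℕ) : ℝ))) * ((1 / 2) *
        ((∑ s ∈ Icc (1 : ℤ) N, c s * ee (((-(j : ℤ) : ℤ) : ℝ) * ((s : ℝ) / ((2 * R : ℕ) : ℝ)))) -
        (∑ s ∈ Icc (1 : ℤ) N, c s * ee ((((R : ℤ) - j : ℤ) : ℝ) * ((s : ℝ) / ((2 * R : ℕ) : ℝ)))))) := by
    rw [← sum_sub_distrib, mul_sum, mul_sum]
    have e1 : ∀ s ∈ Icc (1 : ℤ) N, ee ((j : ℝ) * (3 / ((2 * R : ℕ) : ℝ))) * (1 / 2 *
        (c s * ee (((-(j : ℤ) : ℤ) : ℝ) * ((s : ℝ) / ((2 * R : ℕ) : ℝ))) -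
        c s * ee ((((R : ℤ) - j : ℤ) : ℝ) * ((s : ℝ) / ((2 * R : ℕ) : ℝ))))) =
        if s % 2 = 1 then c s * ee ((j : ℝ) * (((3 - s : ℤ) : ℝ) / ((2 * R : ℕ) : ℝ))) else 0 := by
      intro s _
      have f1 : ee ((((R : ℤ) - j : ℤ) : ℝ) * ((s : ℝ) / ((2 * R : ℕ) : ℝ))) =
          ee ((s : ℝ) / 2) * ee (((-(j : ℤ) : ℤ) : ℝ) * ((s : ℝ) / ((2 * R : ℕ) : ℝ))) := by
        rw [← ee_add]
        congr 1
        have hR2 : (0 : ℝ) < R := by exact_mod_cast hR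
        push_cast
        field_simp
        ring
      have f2 : ee ((j : ℝ) * (((3 - s : ℤ) : ℝ) / ((2 * R : ℕ) : ℝ))) =
          ee ((j : ℝ) * (3 / ((2 * R : ℕ) : ℝ))) * ee (((-(j : ℤ) : ℤ) : ℝ) * ((s : ℝ) / ((2 * R : ℕ) : ℝ))) := by
        rw [← ee_add]
        congr 1
        push_cast
        ring
      rw [f1, f2]
      rcases Int.emod_two_eq_zero_or_one s with h | h
      · rw [if_neg (by omega)]
        obtain ⟨w, hw⟩ : ∃ w : ℤ, s = 2 * w := ⟨s / 2, by omega⟩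
        have : ee ((s : ℝ) / 2) = 1 := by
          rw [hw]
          have : (((2 * w : ℤ) : ℝ) / 2) = (w : ℝ) := by push_cast; ring
          rw [this, ee_int]
        rw [this]; ring
      · rw [if_pos h]
        obtain ⟨w, hw⟩ : ∃ w : ℤ, s = 2 * w + 1 := ⟨s / 2, by omega⟩
        have : ee ((s : ℝ) / 2) = -1 := by
          rw [hw]
          have : (((2 * w + 1 : ℤ) : ℝ) / 2) = (w : ℝ) + 1 / 2 := by push_cast; ring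
          rw [this, ee_add, ee_int, one_mul, ee_eq]
          have : ((2 * Real.pi * (1 / 2 : ℝ) : ℝ) : ℂ) * Complex.I = Real.pi * Complex.I := by
            push_cast; ring
          rw [this, Complex.exp_pi_mul_I]
        rw [this]; ring
    rw [sum_congr rfl e1, ← sum_filter]
    refine sum_nbij' (fun b => 2 * b + 3) (fun s => (s - 3) / 2) ?_ ?_ ?_ ?_ ?_
    · intro b hb; simp only [mem_Icc, mem_filter] at hb ⊢; omega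
    · intro s hs; simp only [mem_Icc, mem_filter] at hs ⊢; omega
    · intro b hb; simp only [mem_Icc] at hb; omega
    · intro s hs; simp only [mem_Icc, mem_filter] at hs; omega
    · intro b _
      congr 4
      push_cast
      ring
  rw [h2, norm_mul, norm_ee, one_mul, norm_mul]
  have h3 := h1 (-(j : ℤ))
  have h4 := h1 ((R : ℤ) - j)
  have h5 := norm_sub_le (∑ s ∈ Icc (1 : ℤ) N, c s * ee (((-(j : ℤ) : ℤ) : ℝ) * ((s : ℝ) / ((2 * R : ℕ) : ℝ))))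
    (∑ s ∈ Icc (1 : ℤ) N, c s * ee ((((R : ℤ) - j : ℤ) : ℝ) * ((s : ℝ) / ((2 * R : ℕ) : ℝ))))
  have h6 : ‖(1 / 2 : ℂ)‖ = 1 / 2 := by norm_num
  rw [h6]
  linarith

end Pool.Agent.E8helper64.GB
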